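import Pool.Agent.Lib.MP_e2257e_gt.B.All
import Pool.Agent.Lib.MP_e2257e_gt.C.Emb
import Pool.Agent.Lib.MP_e2257e_gt.C.Ptm
import Pool.Agent.Lib.MP_e2257e_gt.C.Stage
import Pool.Agent.Lib.MP_e2257e_gt.C.EX
import Pool.Agent.Lib.MP_e2257e_gt.C.Fam
import Pool.Agent.Lib.MP_e2257e_gt.C.Bdd
import Pool.Agent.Lib.MP_e2257e_gt.C.Vb
import Pool.Agent.Lib.MP_e2257e_gt.C.Bread
import Pool.Agent.Lib.MP_e2257e_gt.C.Wread
import Pool.Agent.Lib.MP_e2257e_gt.C.Sel
import Pool.Agent.Lib.MP_e2257e_gt.C.Nsel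
import Pool.Agent.Lib.MP_e2257e_gt.C.Fin
import Pool.Agent.Lib.MP_e2257e_gt.D.OrdF
import Pool.Agent.Lib.MP_e2257e_gt.D.Coord
import Pool.Agent.Lib.MP_e2257e_gt.D.DomF
import Pool.Agent.Lib.MP_e2257e_gt.D.TowerF
import Pool.Agent.Lib.MP_e2257e_gt.D.UnbF
import Pool.Agent.Lib.MP_e2257e_gt.D.HitF
import Pool.Agent.Lib.MP_e2257e_gt.D.Lev
import Pool.Agent.Lib.MP_e2257e_gt.D.Asm

/-!
# MP_e2257e_gt : the main theorem
-/

set_option autoImplicit false

namespace Pool.Agent.CW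

theorem p_pt : S_pt := pt_proof mr_proof

theorem p_EX : S_EX := EX_proof ae_proof p_ms p_real p_pt

theorem p_F : S_F := F_proof ae_proof p_ms p_real p_pt p_EX

theorem p_bdd : S_bdd :=
  bdd_proof p_decN ae_proof p_ms read_proof p_real p_seq stage_proof p_EX

theorem p_vb : S_vb := vb_proof p_decN ae_proof p_ms p_real

theorem p_bread : S_bread := bread_proof p_loc read_proof p_vb

theorem p_wread : S_wread :=
  wread_proof p_loc p_decN ae_proof p_ms read_proof p_vb p_pt p_EX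

theorem p_sel : S_sel :=
  sel_proof ae_proof p_ms p_seq stage_proof p_EX p_bread p_wread p_real p_pt

theorem p_nsel : S_nsel := nsel_proof ae_proof p_ms p_seq stage_proof p_F p_EX

theorem p_fin : S_fin := fin_proof p_EX p_bdd p_sel p_nsel

/-- the main theorem -/
theorem main : MainStatement := by
  have hc := FS.coord_proof gen_proof
  exact FS.asm emb_proof p_fin FS.ordF_proof hc
    (FS.dom_proof gen_proof p_loc p_decN FS.name_proof hc) (FS.tower_proof gen_proof p_loc hc)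
    (FS.unb_proof gen_proof p_loc p_decN hc) (FS.hitF_proof gen_proof p_loc p_decN hc)
    FS.lev_proof

end Pool.Agent.CW
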